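import Pool.Agent.J4.H94.XD.Defs
import Pool.Agent.J4.H94.XC.LOC
import Pool.Agent.J4.H94.XC.Clo

/-!
# The invariant of a link with an unknotted component as a weighted trace (piece AXF)
-/

set_option autoImplicit false

namespace Pool.Agent.J4.H94.XD

open Finset Matrix Pool.Agent.H550R3.Jones Pool.Agent.W715.VC Pool.Agent.W709.QAT
open Pool.Agent.J4.H94.RP Pool.Agent.J4.H94.XC
open Pool.Agent.W719.BS (kw)

namespace AXF

variable {N : ℕ}

lemma snoc {n : ℕ} {a : List (Fin N)} (h : a.length = n + 1) :
    ∃ a' x, a = a' ++ [x] ∧ a'.length = n := by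
  have hne : a ≠ [] := by rintro rfl; simp at h
  refine ⟨a.dropLast, a.getLast hne, (List.dropLast_append_getLast hne).symm, ?_⟩
  rw [List.length_dropLast, h]
  rfl

lemma uncons {n : ℕ} {a : List (Fin N)} (h : a.length = n + 1) :
    ∃ x a', a = x :: a' ∧ a'.length = n := by
  rcases a with _ | ⟨x, a'⟩
  · simp at h
  · exact ⟨x, a', rfl, by simpa using h⟩

/-- product of the coefficients of pairs -/
noncomputable def zp (c : Fin N × Fin N → ℂ) (a b : List (Fin N)) : ℂ :=
  (List.zipWith (fun x y => c (x, y)) a b).prod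

lemma zp_nil (c : Fin N × Fin N → ℂ) : zp c [] [] = 1 := rfl

lemma zp_cons (c : Fin N × Fin N → ℂ) (a b : List (Fin N)) (x y : Fin N) :
    zp c (x :: a) (y :: b) = c (x, y) * zp c a b := by
  simp [zp]

lemma zp_snoc (c : Fin N × Fin N → ℂ) {a b : List (Fin N)} (h : a.length = b.length)
    (x y : Fin N) : zp c (a ++ [x]) (b ++ [y]) = zp c a b * c (x, y) := by
  unfold zp
  rw [List.zipWith_append h]
  simp

lemma sumL_snoc (n : ℕ) (F : List (Fin N) → ℂ) :
    sumL (n + 1) F = sumL n (fun s => ∑ x : Fin N, F (s ++ [x])) := by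
  rw [sumL_append n 1]
  rfl

lemma run_caps (v : ℂ) (z : Fin N) : ∀ (n : ℕ) (g : List (Fin N) → ℂ),
    run N v (caps n) g [z] = sumL n fun a => sumL n fun b =>
      zp (Pool.Agent.W709.QAT.cap N v) a b * g (z :: (a ++ b.reverse)) := by
  intro n
  induction n with
  | zero =>
    intro g
    simp [caps, run, sumL, zp]
  | succ n ih =>
    intro g
    have h1 : caps (n + 1) = Piece.cap (n + 1) :: caps n := by
      unfold caps
      rw [List.range_succ, List.reverse_append]
      rfl
    rw [h1, run_cons, ih, sumL_snoc]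
    refine sumL_congr fun a ha => ?_
    have h2 : ∀ x, sumL (n + 1) (fun b => zp (Pool.Agent.W709.QAT.cap N v) (a ++ [x]) b *
        g (z :: (a ++ [x] ++ b.reverse))) =
        sumL n (fun b => ∑ y, zp (Pool.Agent.W709.QAT.cap N v) (a ++ [x]) (b ++ [y]) *
          g (z :: (a ++ [x] ++ (b ++ [y]).reverse))) := fun x => sumL_snoc _ _
    simp only [h2]
    rw [← sumL_sum]
    refine sumL_congr fun b hb => ?_
    have h3 := act_cap v g (z :: a) b.reverse
    rw [List.length_cons, ha, List.cons_append] at h3
    rw [h3, Finset.mul_sum, Fintype.sum_prod_type]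
    refine sum_congr rfl fun x _ => sum_congr rfl fun y _ => ?_
    rw [zp_snoc _ (ha.trans hb.symm), mul_assoc]
    simp

lemma run_cups (v : ℂ) (z : Fin N) (f : List (Fin N) → ℂ) : ∀ (n : ℕ) (a b : List (Fin N)),
    a.length = n → b.length = n →
    run N v (cups n) f (z :: (a ++ b.reverse)) =
      zp (Pool.Agent.W709.QAT.cup N v) a b * f [z] := by
  intro n
  induction n with
  | zero =>
    intro a b ha hb
    obtain rfl := List.length_eq_zero_iff.1 ha
    obtain rfl := List.length_eq_zero_iff.1 hb
    simp [cups, run, zp]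
  | succ n ih =>
    intro a b ha hb
    have h1 : cups (n + 1) = cups n ++ [Piece.cup (n + 1)] := by
      unfold cups
      rw [List.range_succ, List.map_append]
      rfl
    obtain ⟨a', x, rfl, ha'⟩ := snoc ha
    obtain ⟨b', y, rfl, hb'⟩ := snoc hb
    rw [h1, run_append]
    have h2 := act_cup v (run N v (cups n) f) (z :: a') b'.reverse x y
    rw [List.length_cons, ha'] at h2
    have h3 : z :: (a' ++ [x] ++ (b' ++ [y]).reverse) = (z :: a') ++ x :: y :: b'.reverse := by
      simp
    rw [h3]
    show (Piece.cup (n + 1)).act N v (run N v (cups n) f) _ = _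
    rw [h2, zp_snoc _ (ha'.trans hb'.symm)]
    have h4 : (z :: a') ++ b'.reverse = z :: (a' ++ b'.reverse) := rfl
    rw [h4, ih _ _ ha' hb']
    ring

lemma act_sh1 (v : ℂ) (P : Piece) (f : List (Fin N) → ℂ) (c : Fin N) (s : List (Fin N)) :
    (sh1 P).act N v f (c :: s) = P.act N v (fun t => f (c :: t)) s := by
  cases P <;> simp only [sh1, Piece.act, List.drop_succ_cons, List.take_succ_cons,
    List.cons_append]

lemma run_sh1 (v : ℂ) (T : Diag) : ∀ (f : List (Fin N) → ℂ) (c : Fin N) (s : List (Fin N)),
    run N v (T.map sh1) f (c :: s) = run N v T (fun t => f (c :: t)) s := by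
  induction T with
  | nil => intro f c s; rfl
  | cons P T ih =>
    intro f c s
    rw [List.map_cons, run_cons, run_cons, ih]
    exact congrArg (fun F => run N v T F s) (funext fun t => act_sh1 v P f c t)

lemma run_zero (v : ℂ) (D : Diag) (s : List (Fin N)) : run N v D (fun _ => 0) s = 0 := by
  have := LOC.run_sum v D (∅ : Finset Unit) (fun _ => 0) (fun _ _ => 0) s
  simpa using this

lemma cups_vanish (v : ℂ) (n : ℕ) {c : Fin N} (hc : (c : ℕ) ≠ 0) (t : List (Fin N)) :
    run N v (cups n) (e0 N) (c :: t) = 0 := by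
  have h1 : cups n = ((List.range n).map Piece.cup).map sh1 := by
    unfold cups
    rw [List.map_map]
    rfl
  rw [h1, run_sh1]
  have h2 : (fun t : List (Fin N) => e0 N (c :: t)) = fun _ => 0 := by
    funext t
    unfold e0
    rw [if_neg]
    simp [hc]
  rw [h2, run_zero]

/-- the weight of one passage -/
noncomputable def wtx (N : ℕ) (v : ℂ) (x : Fin N) : ℂ := v ^ (-((N : ℤ) - 1) * (1 + (x : ℕ)))

lemma crossP_down {v : ℂ} {z : Fin N} (hz : (z : ℕ) = 0) (x : Fin N) (p : Fin N × Fin N) :
    crossP N v (z, x) p = if p = (x, z) then wtx N v x else 0 := by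
  unfold crossP wtx
  by_cases h : p = (x, z)
  · subst h
    rw [if_pos rfl, if_pos ⟨by simp only; omega, le_rfl⟩]
    simp [hz, brf]
  · rw [if_neg h, if_neg]
    rintro ⟨h1, h2⟩
    apply h
    simp only at h1 h2
    refine Prod.ext (Fin.ext ?_) (Fin.ext ?_)
    · simp only; omega
    · simp only; omega

lemma crossP_up {v : ℂ} {z : Fin N} (hz : (z : ℕ) = 0)
    (hb : ∀ k : ℕ, 0 < k → k < N → br v k ≠ 0) (x c y : Fin N) :
    crossP N v (x, c) (z, y) = if c = z ∧ y = x then wtx N v x else 0 := by
  unfold crossP wtx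
  by_cases h : c = z ∧ y = x
  · obtain ⟨rfl, rfl⟩ := h
    rw [if_pos ⟨by simp only; omega, le_rfl⟩, if_pos ⟨rfl, rfl⟩]
    have h1 := CLO.brfne hb y.2
    simp [hz, brf] at h1 ⊢
    rw [div_self h1, mul_one]
  · rw [if_neg h, if_neg]
    rintro ⟨h1, h2⟩
    apply h
    simp only at h1 h2
    refine ⟨Fin.ext ?_, Fin.ext ?_⟩
    · omega
    · omega

lemma run_down {v : ℂ} {z : Fin N} (hz : (z : ℕ) = 0) : ∀ (n : ℕ) (g : List (Fin N) → ℂ)
    (s r : List (Fin N)), s.length = n →
    run N v ((List.range n).reverse.map fun i => Piece.twist i true 1) g (z :: (s ++ r)) =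
      (s.map (wtx N v)).prod * g (s ++ z :: r) := by
  intro n
  induction n with
  | zero =>
    intro g s r hs
    obtain rfl := List.length_eq_zero_iff.1 hs
    simp [run]
  | succ n ih =>
    intro g s r hs
    obtain ⟨s', x, rfl, hs'⟩ := snoc hs
    have h1 : ((List.range (n + 1)).reverse.map fun i => Piece.twist i true 1) =
        Piece.twist n true 1 :: ((List.range n).reverse.map fun i => Piece.twist i true 1) := by
      rw [List.range_succ, List.reverse_append]
      rfl
    have h2 : z :: (s' ++ [x] ++ r) = z :: (s' ++ (x :: r)) := by simp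
    rw [h1, run_cons, h2, ih _ s' (x :: r) hs']
    have h3 := act_twist v true 1 g s' r z x
    rw [hs'] at h3
    rw [h3, Finset.sum_eq_single (x, z)]
    · simp only [if_true, pow_one]
      rw [crossP_down hz, if_pos rfl]
      simp only [List.map_append, List.map_cons, List.map_nil, List.prod_append, List.prod_cons,
        List.prod_nil, List.append_assoc, List.cons_append, List.nil_append]
      ring
    · intro p _ hp
      simp only [if_true, pow_one]
      rw [crossP_down hz, if_neg hp, zero_mul]
    · intro h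
      exact absurd (Finset.mem_univ _) h

lemma run_up {v : ℂ} {z : Fin N} (hz : (z : ℕ) = 0)
    (hb : ∀ k : ℕ, 0 < k → k < N → br v k ≠ 0) (f : List (Fin N) → ℂ)
    (hf : ∀ (c : Fin N) (t : List (Fin N)), (c : ℕ) ≠ 0 → f (c :: t) = 0) :
    ∀ (n : ℕ) (s r : List (Fin N)) (c : Fin N), s.length = n →
    run N v ((List.range n).map fun i => Piece.twist i true 1) f (s ++ c :: r) =
      if c = z then (s.map (wtx N v)).prod * f (z :: (s ++ r)) else 0 := by
  intro n
  induction n with
  | zero =>
    intro s r c hs
    obtain rfl := List.length_eq_zero_iff.1 hs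
    by_cases hc : c = z
    · subst hc
      simp [run]
    · rw [if_neg hc]
      exact hf c r fun h => hc (Fin.ext (h.trans hz.symm))
  | succ n ih =>
    intro s r c hs
    obtain ⟨s', x, rfl, hs'⟩ := snoc hs
    have h1 : ((List.range (n + 1)).map fun i => Piece.twist i true 1) =
        ((List.range n).map fun i => Piece.twist i true 1) ++ [Piece.twist n true 1] := by
      rw [List.range_succ, List.map_append]
      rfl
    have h2 : s' ++ [x] ++ c :: r = s' ++ x :: c :: r := by simp
    rw [h1, run_append, h2]
    show (Piece.twist n true 1).act N v (run N v _ f) _ = _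
    have h3 := act_twist v true 1 (run N v ((List.range n).map fun i => Piece.twist i true 1) f)
      s' r x c
    rw [hs'] at h3
    rw [h3]
    have h4 : ∀ p : Fin N × Fin N,
        run N v ((List.range n).map fun i => Piece.twist i true 1) f (s' ++ p.1 :: p.2 :: r) =
        if p.1 = z then (s'.map (wtx N v)).prod * f (z :: (s' ++ p.2 :: r)) else 0 :=
      fun p => ih s' (p.2 :: r) p.1 hs'
    simp only [h4, if_true, pow_one]
    rw [Finset.sum_eq_single (z, x)]
    · rw [crossP_up hz hb]
      by_cases hc : c = z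
      · simp only [hc, and_self, if_true, List.map_append, List.map_cons, List.map_nil,
          List.prod_append, List.prod_cons, List.prod_nil, List.append_assoc, List.cons_append,
          List.nil_append]
        ring
      · simp [hc]
    · rintro ⟨p1, p2⟩ _ hp
      by_cases hp1 : p1 = z
      · subst hp1
        rw [crossP_up hz hb, if_neg, zero_mul]
        rintro ⟨-, h6⟩
        exact hp (by rw [h6])
      · simp [hp1]
    · intro h
      exact absurd (Finset.mem_univ _) h

lemma run_sumL (v : ℂ) (D : Diag) (s : List (Fin N)) : ∀ (n : ℕ) (c : List (Fin N) → ℂ)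
    (g : List (Fin N) → List (Fin N) → ℂ),
    run N v D (fun t => sumL n (fun q => c q * g q t)) s =
      sumL n (fun q => c q * run N v D (g q) s) := by
  intro n
  induction n with
  | zero =>
    intro c g
    have := LOC.run_sum v D (Finset.univ : Finset Unit) (fun _ => c []) (fun _ => g []) s
    simpa [sumL] using this
  | succ n ih =>
    intro c g
    simp only [sumL]
    have := LOC.run_sum v D (Finset.univ : Finset (Fin N)) (fun _ => 1)
      (fun a t => sumL n (fun q => c (a :: q) * g (a :: q) t)) s
    simp only [one_mul] at this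
    rw [this]
    exact sum_congr rfl fun a _ => ih (fun q => c (a :: q)) (fun q => g (a :: q))

lemma sumL_delta : ∀ (n : ℕ) (h : List (Fin N) → ℂ) (t : List (Fin N)), t.length = n →
    sumL n (fun q => h q * (if t = q then 1 else 0)) = h t := by
  intro n
  induction n with
  | zero =>
    intro h t ht
    obtain rfl := List.length_eq_zero_iff.1 ht
    simp [sumL]
  | succ n ih =>
    intro h t ht
    obtain ⟨a, t', rfl, ht'⟩ := uncons ht
    simp only [sumL]
    rw [Finset.sum_eq_single a]
    · have := ih (fun q => h (a :: q)) t' ht'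
      simpa using this
    · intro b _ hb
      have : (fun s => h (b :: s) * (if a :: t' = b :: s then (1 : ℂ) else 0)) = fun _ => 0 := by
        funext s
        rw [if_neg, mul_zero]
        intro h'
        injection h' with h1 h2
        exact hb h1.symm
      rw [this, sumL_zero]
    · intro h
      exact absurd (Finset.mem_univ _) h

lemma run_me (v : ℂ) {T : Diag} {n : ℕ} (hT : Tan T n n) (h : List (Fin N) → ℂ)
    (s : List (Fin N)) (hs : s.length = n) :
    run N v T h s = sumL n (fun t => h t * me N v T s t) := by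
  have h1 : ∀ t : List (Fin N), t.length = n →
      h t = sumL n (fun q => h q * (if t = q then 1 else 0)) :=
    fun t ht => (sumL_delta n h t ht).symm
  rw [run_congr hT h1 s hs, run_sumL]
  rfl

lemma cc_one {v : ℂ} (hv : v ≠ 0) (hb : ∀ k : ℕ, 0 < k → k < N → br v k ≠ 0) (a t : Fin N) :
    ∑ b : Fin N, Pool.Agent.W709.QAT.cap N v (a, b) * Pool.Agent.W709.QAT.cup N v (t, b) =
      if t = a then (-1) ^ (N - 1) * kw N v a else 0 := by
  have ha := a.2
  have hr : (a : ℕ) + (Fin.rev a : Fin N) = N - 1 := by
    rw [Fin.val_rev]; omega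
  rw [Finset.sum_eq_single (Fin.rev a)]
  · simp only [Pool.Agent.W709.QAT.cap, Pool.Agent.W709.QAT.cup]
    rw [if_pos hr]
    by_cases h : t = a
    · subst h
      rw [if_pos hr, if_pos rfl, mul_comm]
      exact CLO.kap_ratio hv hb t (Fin.rev t) hr
    · rw [if_neg h, if_neg, mul_zero]
      intro hc
      exact h (Fin.ext (by omega))
  · intro b _ hb'
    simp only [Pool.Agent.W709.QAT.cap]
    rw [if_neg, zero_mul]
    intro hc
    exact hb' (Fin.ext (by omega))
  · intro h
    exact absurd (Finset.mem_univ _) h

lemma cc {v : ℂ} (hv : v ≠ 0) (hb : ∀ k : ℕ, 0 < k → k < N → br v k ≠ 0) :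
    ∀ (n : ℕ) (a t : List (Fin N)), a.length = n → t.length = n →
    sumL n (fun b => zp (Pool.Agent.W709.QAT.cap N v) a b *
      zp (Pool.Agent.W709.QAT.cup N v) t b) =
      if t = a then (a.map fun x => (-1) ^ (N - 1) * kw N v x).prod else 0 := by
  intro n
  induction n with
  | zero =>
    intro a t ha ht
    obtain rfl := List.length_eq_zero_iff.1 ha
    obtain rfl := List.length_eq_zero_iff.1 ht
    simp [sumL, zp]
  | succ n ih =>
    intro a t ha ht
    obtain ⟨x, a', rfl, ha'⟩ := uncons ha
    obtain ⟨y, t', rfl, ht'⟩ := uncons ht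
    simp only [sumL, zp_cons]
    have h1 : ∀ b : Fin N, sumL n (fun s => Pool.Agent.W709.QAT.cap N v (x, b) *
        zp (Pool.Agent.W709.QAT.cap N v) a' s * (Pool.Agent.W709.QAT.cup N v (y, b) *
        zp (Pool.Agent.W709.QAT.cup N v) t' s)) =
        (Pool.Agent.W709.QAT.cap N v (x, b) * Pool.Agent.W709.QAT.cup N v (y, b)) *
        (if t' = a' then (a'.map fun x => (-1) ^ (N - 1) * kw N v x).prod else 0) := by
      intro b
      rw [← ih a' t' ha' ht', ← sumL_mul]
      refine sumL_congr fun s _ => ?_
      ring
    simp only [h1]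
    rw [← Finset.sum_mul, cc_one hv hb]
    by_cases h : y = x
    · subst h
      by_cases h' : t' = a'
      · subst h'
        simp
      · simp [h']
    · simp [h]

end AXF

open AXF in
/-- **the invariant as a weighted trace** -/
theorem axf : S_AXF := by
  intro N n v T h hv hb hT
  rw [jones_e0 h]
  have hz : ((⟨0, h⟩ : Fin N) : ℕ) = 0 := rfl
  generalize (⟨0, h⟩ : Fin N) = z at hz
  set f := run N v (T.map sh1) (run N v (cups n) (e0 N)) with hf
  have e1 : run N v (ax n T) (e0 N) = run N v (caps n)
      (run N v ((List.range n).reverse.map fun i => Piece.twist i true 1)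
        (run N v ((List.range n).map fun i => Piece.twist i true 1) f)) := by
    unfold ax pass
    simp only [run_append]
    rfl
  have hfv : ∀ (c : Fin N) (t : List (Fin N)), (c : ℕ) ≠ 0 → f (c :: t) = 0 := by
    intro c t hc
    rw [hf, run_sh1]
    have : (fun t => run N v (cups n) (e0 N) (c :: t)) = fun _ => 0 :=
      funext fun t => cups_vanish v n hc t
    rw [this, run_zero]
  rw [e1, run_caps]
  refine sumL_congr fun a ha => ?_
  have h1 : ∀ b : List (Fin N), b.length = n →
      zp (Pool.Agent.W709.QAT.cap N v) a b *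
        run N v ((List.range n).reverse.map fun i => Piece.twist i true 1)
        (run N v ((List.range n).map fun i => Piece.twist i true 1) f)
          (z :: (a ++ b.reverse)) =
      sumL n (fun t => ((a.map (wtx N v)).prod * (a.map (wtx N v)).prod * me N v T a t) *
        (zp (Pool.Agent.W709.QAT.cap N v) a b * zp (Pool.Agent.W709.QAT.cup N v) t b)) := by
    intro b hb'
    rw [run_down hz n _ a b.reverse ha, run_up hz hb f hfv n a b.reverse z ha, if_pos rfl, hf,
      run_sh1, LOC.run_tail v T hT _ a b.reverse ha]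
    have h2 : ∀ t : List (Fin N), t.length = n →
        run N v (cups n) (e0 N) (z :: (t ++ b.reverse)) =
          zp (Pool.Agent.W709.QAT.cup N v) t b := by
      intro t ht
      rw [run_cups v z _ n t b ht hb', e0_one, if_pos hz, mul_one]
    rw [run_congr hT h2 a ha, run_me v hT _ a ha, ← sumL_mul, ← sumL_mul, ← sumL_mul]
    refine sumL_congr fun t _ => ?_
    ring
  rw [sumL_congr h1, sumL_comm]
  have h3 : ∀ t : List (Fin N), t.length = n →
      sumL n (fun b => ((a.map (wtx N v)).prod * (a.map (wtx N v)).prod * me N v T a t) *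
        (zp (Pool.Agent.W709.QAT.cap N v) a b * zp (Pool.Agent.W709.QAT.cup N v) t b)) =
      ((a.map (wtx N v)).prod * (a.map (wtx N v)).prod *
        (a.map fun x => (-1) ^ (N - 1) * kw N v x).prod * me N v T a t) *
        (if a = t then 1 else 0) := by
    intro t ht
    rw [sumL_mul, cc hv hb n a t ha ht]
    by_cases hat : t = a
    · rw [if_pos hat, if_pos hat.symm]
      ring
    · rw [if_neg hat, if_neg (Ne.symm hat)]
      ring
  rw [sumL_congr h3, sumL_delta n _ a ha, ← List.prod_map_mul, ← List.prod_map_mul]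
  congr 3
  funext x
  unfold wtx Pool.Agent.W719.BS.kw
  rw [← zpow_add₀ hv, mul_left_comm, ← zpow_add₀ hv]
  congr 2
  ring

end Pool.Agent.J4.H94.XD
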