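import Pool.Agent.J4.H94.XC.FCT

/-!
# Links with an unknotted component: definitions and statements
-/

set_option autoImplicit false

namespace Pool.Agent.J4.H94.XD

open Finset Filter Topology Matrix Pool.Agent.H550R3.Jones Pool.Agent.W715.VC Pool.Agent.W709.QAT
open Pool.Agent.J4.H94.RP

/-- a piece, moved to the right by one strand -/
def sh1 : Piece → Piece
  | .cup i => .cup (i + 1)
  | .cap i => .cap (i + 1)
  | .twist i σ m => .twist (i + 1) σ m

/-- `n` nested cups to the right of strand `0` -/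
def cups (n : ℕ) : Diag := (List.range n).map fun i => Piece.cup (i + 1)

/-- `n` nested caps to the right of strand `0` -/
def caps (n : ℕ) : Diag := (List.range n).reverse.map fun i => Piece.cap (i + 1)

/-- strand `0` runs once around the next `n` strands -/
def pass (n : ℕ) : Diag := ((List.range n).map fun i => Piece.twist i true 1) ++
  ((List.range n).reverse.map fun i => Piece.twist i true 1)

/-- the closure of `T` together with the axis, the axis cut open -/
def ax (n : ℕ) (T : Diag) : Diag := cups n ++ T.map sh1 ++ pass n ++ caps n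

/-- the matrix entries of the operator of `T` -/
noncomputable def me (N : ℕ) (v : ℂ) (T : Diag) (s t : List (Fin N)) : ℂ :=
  run N v T (fun x => if x = t then 1 else 0) s

/-- AXF: the invariant as a weighted trace -/
def S_AXF : Prop := ∀ (N n : ℕ) (v : ℂ) (T : Diag), 0 < N → v ≠ 0 →
  (∀ k : ℕ, 0 < k → k < N → br v k ≠ 0) → Tan T n n →
  jones N (ax n T) v = sumL n fun s : List (Fin N) =>
    (s.map fun a : Fin N => (-1) ^ (N - 1) * v ^ (-((N : ℤ) - 1) - 2 * N * ((a : ℕ) : ℤ))).prod *
      me N v T s s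

/-- PWS: power sums -/
def S_PWS : Prop := ∀ (ι : Type) [Fintype ι] [DecidableEq ι] (M : Matrix ι ι ℂ) (r : ℝ), 0 ≤ r →
  (∀ δ : ℝ, 0 < δ → ∀ᶠ k : ℕ in atTop, ‖(M ^ k).trace‖ ≤ (r + δ) ^ k) →
  ∀ k : ℕ, ‖(M ^ k).trace‖ ≤ Fintype.card ι * r ^ k

/-- MAT: the operators of (n,n)-tangles as matrices -/
def S_MAT : Prop := ∀ (N n : ℕ) (v : ℂ) (T : Diag), Tan T n n →
  (∀ k : ℕ, sumL n (fun s : List (Fin N) => me N v (pw T k) s s) =
    ((Matrix.of fun s t : Fin n → Fin N => me N v T (List.ofFn s) (List.ofFn t)) ^ k).trace)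

end Pool.Agent.J4.H94.XD
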