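import Pool.Agent.J4.H94.XD.Defs
import Pool.Agent.J4.H94.XC.LOC

/-! Piece MAT of project XD: the operators of (n,n)-tangles as matrices. -/

set_option autoImplicit false

namespace Pool.Agent.J4.H94.XD

open Finset Filter Topology Matrix Pool.Agent.H550R3.Jones Pool.Agent.W715.VC Pool.Agent.W709.QAT
open Pool.Agent.J4.H94.RP

namespace MAT

variable {N : ℕ}

theorem sumL_eq (n : ℕ) : ∀ F : List (Fin N) → ℂ, sumL n F = ∑ s : Fin n → Fin N, F (List.ofFn s) := by
  induction n with
  | zero =>
    intro F
    simp [sumL]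
  | succ n ih =>
    intro F
    have h1 : sumL (n + 1) F = ∑ a : Fin N, ∑ s : Fin n → Fin N, F (a :: List.ofFn s) := by
      simp only [sumL]
      exact Finset.sum_congr rfl fun a _ => ih _
    rw [h1, ← Fintype.sum_prod_type' (f := fun (a : Fin N) (s : Fin n → Fin N) => F (a :: List.ofFn s))]
    refine Fintype.sum_equiv (Fin.consEquiv fun _ => Fin N) _ _ fun p => ?_
    congr 1
    rw [List.ofFn_succ]
    simp [Fin.consEquiv]

/-- the matrix of a tangle -/
noncomputable def mx (n : ℕ) (v : ℂ) (T : Diag) : Matrix (Fin n → Fin N) (Fin n → Fin N) ℂ :=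
  Matrix.of fun s t => me N v T (List.ofFn s) (List.ofFn t)

theorem expand (n : ℕ) (f : List (Fin N) → ℂ) (t : List (Fin N)) (ht : t.length = n) :
    f t = ∑ u : Fin n → Fin N, f (List.ofFn u) * (if t = List.ofFn u then 1 else 0) := by
  subst ht
  rw [Finset.sum_eq_single (fun i => t.get i)]
  · rw [List.ofFn_get]
    simp
  · intro u _ hu
    rw [if_neg, mul_zero]
    intro h
    apply hu
    apply List.ofFn_injective
    rw [List.ofFn_get]
    exact h.symm
  · intro h
    exact absurd (Finset.mem_univ _) h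

theorem me_append {n : ℕ} (v : ℂ) (D E : Diag) (hE : Tan E n n) (s t : Fin n → Fin N) :
    me N v (D ++ E) (List.ofFn s) (List.ofFn t) =
      ∑ u : Fin n → Fin N, me N v E (List.ofFn s) (List.ofFn u) * me N v D (List.ofFn u) (List.ofFn t) := by
  unfold me
  rw [run_append]
  have h := run_congr (v := v) hE (fun t' ht' => expand n
    (run N v D fun x => if x = List.ofFn t then 1 else 0) t' ht') (List.ofFn s) (by simp)
  rw [h, XC.LOC.run_sum]
  exact Finset.sum_congr rfl fun u _ => mul_comm _ _

theorem mx_pw {n : ℕ} (v : ℂ) (T : Diag) (hT : Tan T n n) (k : ℕ) :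
    mx (N := N) n v (pw T k) = mx n v T ^ k := by
  induction k with
  | zero =>
    ext s t
    rw [pow_zero, pw_zero]
    show (if List.ofFn s = List.ofFn t then (1 : ℂ) else 0) = _
    rw [Matrix.one_apply]
    by_cases h : s = t
    · rw [if_pos (by rw [h]), if_pos h]
    · rw [if_neg (fun h' => h (List.ofFn_injective h')), if_neg h]
  | succ k ih =>
    rw [pow_succ, ← ih, pw_succ]
    ext s t
    rw [Matrix.mul_apply]
    exact me_append v T (pw T k) (pw_Tan hT k) s t

end MAT

open MAT in
theorem mat : S_MAT := by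
  intro N n v T hT k
  rw [sumL_eq]
  have h := mx_pw (N := N) v T hT k
  unfold mx at h
  rw [← h]
  rfl

end Pool.Agent.J4.H94.XD
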