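import Mathlib
import Pool.Agent.W715.VC.TrPow

/-!
# Piece PWS: power sums (insurance copy, by helper82)
-/

set_option autoImplicit false

namespace Pool.Agent.J4.H94.XD.Two

open Finset Filter Topology Matrix

/-- if the power sums grow at most like `r ^ k`, all terms have modulus at most `r` -/
theorem all_le {n : ℕ} (z : Fin n → ℂ) {r : ℝ} (hr : 0 ≤ r)
    (h : ∀ δ : ℝ, 0 < δ → ∀ᶠ k : ℕ in atTop, ‖∑ i, z i ^ k‖ ≤ (r + δ) ^ k) (i₀ : Fin n) :
    ‖z i₀‖ ≤ r := by
  classical
  have : Nonempty (Fin n) := ⟨i₀⟩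
  obtain ⟨m, hm⟩ := Finite.exists_max (fun i => ‖z i‖)
  refine (hm i₀).trans ?_
  by_contra hlt
  rw [not_le] at hlt
  set R : ℝ := ‖z m‖ with hR
  have hR0 : 0 < R := lt_of_le_of_lt hr hlt
  -- the torus
  have hex : ∀ i, ∃ y : Circle, ‖z i‖ = R → (y : ℂ) = z i / R := by
    intro i
    by_cases hi : ‖z i‖ = R
    · have h1 : z i / R ∈ Submonoid.unitSphere ℂ := by
        change z i / R ∈ Metric.sphere (0 : ℂ) 1
        rw [mem_sphere_zero_iff_norm, norm_div, hi, Complex.norm_real, Real.norm_of_nonneg hR0.le,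
          div_self hR0.ne']
      exact ⟨⟨z i / R, h1⟩, fun _ => rfl⟩
    · exact ⟨1, fun h => absurd h hi⟩
  choose x hxz using hex
  have hcl := mapClusterPt_one_atTop_pow x
  have hx : ∃ᶠ k : ℕ in atTop, ∀ i, ‖((x i : ℂ)) ^ k - 1‖ < 1 / 4 := by
    have hop : {y : Fin n → Circle | ∀ i, ‖((y i : ℂ)) - 1‖ < 1 / 4} ∈ 𝓝 (1 : Fin n → Circle) := by
      have h1 : IsOpen {y : Fin n → Circle | ∀ i, ‖((y i : ℂ)) - 1‖ < 1 / 4} := by
        rw [show {y : Fin n → Circle | ∀ i, ‖((y i : ℂ)) - 1‖ < 1 / 4} =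
          ⋂ i, {y : Fin n → Circle | ‖((y i : ℂ)) - 1‖ < 1 / 4} by
            ext y
            simp]
        refine isOpen_iInter_of_finite fun i => isOpen_lt ?_ continuous_const
        exact ((continuous_subtype_val.comp (continuous_apply i)).sub continuous_const).norm
      refine h1.mem_nhds ?_
      intro i
      simp
    have h2 := hcl.frequently hop
    refine h2.mono fun k hk i => ?_
    have h3 := hk i
    simpa using h3
  have hsmall : ∀ᶠ k : ℕ in atTop, ∀ i, ‖z i‖ ≠ R → ‖(z i / R) ^ k‖ < 1 / (4 * (n + 1)) := by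
    rw [eventually_all]
    intro i
    by_cases hi : ‖z i‖ = R
    · exact Eventually.of_forall fun k h => absurd hi h
    · have h1 : ‖z i / R‖ < 1 := by
        rw [norm_div, Complex.norm_real, Real.norm_of_nonneg hR0.le, div_lt_one hR0]
        exact lt_of_le_of_ne (hm i) hi
      have h2 := tendsto_pow_atTop_nhds_zero_of_norm_lt_one h1
      have h3 := h2.norm
      rw [norm_zero] at h3
      filter_upwards [h3.eventually (gt_mem_nhds (show (0 : ℝ) < 1 / (4 * (n + 1)) by positivity))]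
        with k hk _
      exact hk
  obtain ⟨δ, hδ0, hδ⟩ : ∃ δ : ℝ, 0 < δ ∧ r + δ < R :=
    ⟨(R - r) / 2, by linarith, by linarith⟩
  have hq : ((r + δ) / R) < 1 := by
    rw [div_lt_one hR0]
    exact hδ
  have hq0 : 0 ≤ (r + δ) / R := by positivity
  have hsm2 : ∀ᶠ k : ℕ in atTop, ((r + δ) / R) ^ k < 1 / 2 :=
    (tendsto_pow_atTop_nhds_zero_of_lt_one hq0 hq).eventually (gt_mem_nhds (by norm_num))
  obtain ⟨k, hk1, hk2, hk3, hk4⟩ := (hx.and_eventually (hsmall.and (hsm2.and (h δ hδ0)))).exists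
  -- the real part
  have hre : ∀ i, (if ‖z i‖ = R then (3 / 4 : ℝ) else -(1 / (4 * (n + 1)))) ≤
      ((z i / R) ^ k).re := by
    intro i
    by_cases hi : ‖z i‖ = R
    · rw [if_pos hi]
      have h1 := hk1 i
      have h2 : (x i : ℂ) = z i / R := hxz i hi
      rw [h2] at h1
      have h3 := (Complex.abs_re_le_norm ((z i / R) ^ k - 1)).trans h1.le
      rw [Complex.sub_re, Complex.one_re, abs_le] at h3
      linarith [h3.1]
    · rw [if_neg hi]
      have h1 := hk2 i hi
      have h3 := (Complex.abs_re_le_norm ((z i / R) ^ k)).trans h1.le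
      rw [abs_le] at h3
      linarith [h3.1]
  have hsum : (1 / 2 : ℝ) ≤ (∑ i, (z i / R) ^ k).re := by
    rw [Complex.re_sum]
    have h1 : ∑ i, (if i = m then (1 : ℝ) else 0) * (3 / 4) - ∑ _i : Fin n, (1 / (4 * (n + 1)) : ℝ)
        ≤ ∑ i, ((z i / R) ^ k).re := by
      rw [← Finset.sum_sub_distrib]
      refine Finset.sum_le_sum fun i _ => (le_trans ?_ (hre i))
      have hp : (0 : ℝ) < 1 / (4 * (n + 1)) := by positivity
      by_cases him : i = m
      · subst him
        rw [if_pos rfl, if_pos hR.symm]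
        linarith
      · rw [if_neg him]
        by_cases hi : ‖z i‖ = R
        · rw [if_pos hi]
          linarith
        · rw [if_neg hi]
          linarith
    refine le_trans ?_ h1
    rw [← Finset.sum_mul, Finset.sum_ite_eq' , if_pos (Finset.mem_univ m), Finset.sum_const,
      Finset.card_univ, Fintype.card_fin, nsmul_eq_mul]
    have h2 : (n : ℝ) * (1 / (4 * (n + 1))) ≤ 1 / 4 := by
      rw [mul_one_div, div_le_div_iff₀ (by positivity) (by norm_num)]
      nlinarith [Nat.cast_nonneg (α := ℝ) n]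
    linarith
  have h5 : ∑ i, z i ^ k = (R : ℂ) ^ k * ∑ i, (z i / R) ^ k := by
    rw [Finset.mul_sum]
    refine Finset.sum_congr rfl fun i _ => ?_
    have : (R : ℂ) ≠ 0 := by exact_mod_cast hR0.ne'
    rw [div_pow, mul_div_cancel₀]
    exact pow_ne_zero _ this
  have h6 : (1 / 2 : ℝ) ≤ ‖∑ i, (z i / R) ^ k‖ :=
    hsum.trans ((le_abs_self _).trans (Complex.abs_re_le_norm _))
  rw [h5, norm_mul, norm_pow, Complex.norm_real, Real.norm_of_nonneg hR0.le] at hk4
  have hRk : 0 < R ^ k := by positivity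
  rw [div_pow, div_lt_iff₀ hRk] at hk3
  nlinarith

/-- PWS: power sums -/
theorem pws (ι : Type) [Fintype ι] [DecidableEq ι] (M : Matrix ι ι ℂ) (r : ℝ) (hr : 0 ≤ r)
    (h : ∀ δ : ℝ, 0 < δ → ∀ᶠ k : ℕ in atTop, ‖(M ^ k).trace‖ ≤ (r + δ) ^ k) (k : ℕ) :
    ‖(M ^ k).trace‖ ≤ Fintype.card ι * r ^ k := by
  have hcard : M.charpoly.roots.toList.length = Fintype.card ι := by
    rw [Multiset.length_toList, W715.VC.card_roots']
  have htr : ∀ k : ℕ, (M ^ k).trace = ∑ i : Fin M.charpoly.roots.toList.length,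
      (M.charpoly.roots.toList.get i) ^ k := by
    intro k
    have h2 : ∑ i : Fin M.charpoly.roots.toList.length, (M.charpoly.roots.toList.get i) ^ k =
        (M.charpoly.roots.map fun a => a ^ k).sum := by
      conv_rhs => rw [← Multiset.coe_toList M.charpoly.roots]
      rw [Multiset.map_coe, Multiset.sum_coe, ← Fin.sum_univ_getElem]
      simp only [List.get_eq_getElem]
      exact (Fin.sum_univ_fun_getElem _ (fun a : ℂ => a ^ k)).trans (Fin.sum_univ_getElem _).symm
    rw [h2]
    by_cases hk : k = 0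
    · subst hk
      simp only [pow_zero, Matrix.trace_one, Multiset.map_const', Multiset.sum_replicate]
      rw [W715.VC.card_roots']
      simp
    · exact W715.VC.trace_pow M hk
  simp only [htr] at h ⊢
  refine (norm_sum_le _ _).trans ?_
  have h1 := fun i => all_le _ hr h i
  calc _ ≤ ∑ _i : Fin M.charpoly.roots.toList.length, r ^ k := by
        refine Finset.sum_le_sum fun i _ => ?_
        rw [norm_pow]
        exact pow_le_pow_left₀ (norm_nonneg _) (h1 i) k
    _ = _ := by
        rw [Finset.sum_const, Finset.card_univ, Fintype.card_fin, hcard, nsmul_eq_mul]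

end Pool.Agent.J4.H94.XD.Two
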